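import Pool.Agent.Helper4.MCX.Final

/-!
# The `A_∞` and `L_∞` Maurer–Cartan simplicial sets are homotopy equivalent
-/

open CategoryTheory

universe u

namespace Pool.Agent.Results.MP_55e55d_al.Full

open Pool.Agent.Helper4.MCX

/-- The simplicial dg algebras `N^•(Δ^•)` of normalized cochains and `Ω_•` of polynomial forms
exist, and, for every complete shifted `A_∞`-algebra `A` (given by a vector space `V` with the
structure `A`), the simplicial sets `MC_•(A)` and `MC_•(L_A)` formed with them are homotopy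
equivalent. -/
theorem result (K : Type u) [Field K] [CharZero K] :
    (∃ (E : SimplexCategory → Type u) (_ : ∀ n, Ring (E n)) (_ : ∀ n, Algebra K (E n))
      (N : SDG K E) (val : ∀ n, E n → List (Fin (n.len + 1)) → K), N.IsCochains val) ∧
    (∃ (E : SimplexCategory → Type u) (_ : ∀ n, Ring (E n)) (_ : ∀ n, Algebra K (E n))
      (Ω : SDG K E) (t : ∀ n : SimplexCategory, Fin (n.len + 1) → E n), Ω.IsForms t) ∧
    ∀ (V : Type u) [AddCommGroup V] [Module K V] (A : AInf K V)
      (E : SimplexCategory → Type u) [∀ n, Ring (E n)] [∀ n, Algebra K (E n)] (N : SDG K E)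
      (val : ∀ n, E n → List (Fin (n.len + 1)) → K)
      (E' : SimplexCategory → Type u) [∀ n, Ring (E' n)] [∀ n, Algebra K (E' n)] (Ω : SDG K E')
      (t : ∀ n : SimplexCategory, Fin (n.len + 1) → E' n),
      N.IsCochains val → Ω.IsForms t →
        ∃ (f : A.MCA N ⟶ A.MCL Ω) (g : A.MCL Ω ⟶ A.MCA N),
          Nonempty (SSet.Homotopy (f ≫ g) (𝟙 (A.MCA N))) ∧
          Nonempty (SSet.Homotopy (g ≫ f) (𝟙 (A.MCL Ω))) :=
  ⟨exists_cochains K, exists_forms K,
    fun _ _ _ A _ _ _ _ _ _ _ _ _ _ hN hΩ => main_equiv A hN hΩ⟩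

end Pool.Agent.Results.MP_55e55d_al.Full
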